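import Mathlib

/-!
A one variable inequality with logarithms, verified by rational arithmetic.
-/

open Finset

namespace Pool.Agent.Work.MP_ce8257_co.Hedge

/-- partial sum of the series of `log ((1 + s) / (1 - s))` -/
def ser (s : ℚ) : ℚ := ∑ k ∈ range 9, 2 * (1 / (2 * (k : ℚ) + 1)) * s ^ (2 * k + 1)

/-- lower bound for `log 2` -/
def l2lo : ℚ := 6931471803 / 10000000000

/-- upper bound for `log 2` -/
def l2hi : ℚ := 6931471808 / 10000000000

/-- binary order of magnitude -/
def ex (q : ℚ) : ℕ := (q.num / q.den).toNat.log2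

/-- lower bound for the logarithm -/
def lgLo (q : ℚ) : ℚ :=
  if 2 ^ ex q ≤ q then ex q * l2lo + ser ((q / 2 ^ ex q - 1) / (q / 2 ^ ex q + 1)) else 1 - 1 / q

/-- upper bound for the logarithm -/
def lgHi (q : ℚ) : ℚ := (ex q + 1 : ℕ) * l2hi - lgLo (2 ^ (ex q + 1) / q)

lemma l2lo_le : (l2lo : ℝ) ≤ Real.log 2 := by
  have := Real.log_two_gt_d9
  simp only [l2lo]
  push_cast
  linarith

lemma le_l2hi : Real.log 2 ≤ (l2hi : ℝ) := by
  have := Real.log_two_lt_d9
  simp only [l2hi]
  push_cast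
  linarith

lemma ser_le {v : ℚ} (hv : 1 ≤ v) : (ser ((v - 1) / (v + 1)) : ℝ) ≤ Real.log v := by
  have h1 : (1 : ℝ) ≤ v := by exact_mod_cast hv
  have h2 : (0 : ℝ) ≤ ((v : ℝ) - 1) / (v + 1) := div_nonneg (by linarith) (by linarith)
  have h3 : ((v : ℝ) - 1) / (v + 1) < 1 := (div_lt_one (by linarith)).2 (by linarith)
  have h := sum_le_hasSum (range 9) (fun i _ => by positivity)
    (Real.hasSum_log_sub_log_of_abs_lt_one (x := ((v : ℝ) - 1) / (v + 1)) (by rwa [abs_of_nonneg h2]))
  rw [← Real.log_div (by linarith) (by linarith),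
    show (1 + ((v : ℝ) - 1) / (v + 1)) / (1 - ((v : ℝ) - 1) / (v + 1)) = v by field_simp; ring] at h
  simp only [ser]
  push_cast
  exact h

lemma lgLo_le {q : ℚ} (hq : 0 < q) : (lgLo q : ℝ) ≤ Real.log q := by
  have h0 : (0 : ℝ) < q := by exact_mod_cast hq
  unfold lgLo
  split_ifs with h
  · have h1 := ser_le (v := q / 2 ^ ex q) ((one_le_div (by positivity)).2 h)
    have h2 := mul_le_mul_of_nonneg_left l2lo_le (Nat.cast_nonneg (ex q))
    rw [Rat.cast_div q, Real.log_div h0.ne' (by positivity), Rat.cast_pow, Rat.cast_ofNat,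
      Real.log_pow] at h1
    rw [Rat.cast_add, Rat.cast_mul, Rat.cast_natCast]
    linarith
  · simpa using Real.one_sub_inv_le_log_of_pos h0

lemma le_lgHi {q : ℚ} (hq : 0 < q) : Real.log q ≤ (lgHi q : ℝ) := by
  have h0 : (0 : ℝ) < q := by exact_mod_cast hq
  have h1 := lgLo_le (q := 2 ^ (ex q + 1) / q) (by positivity)
  have h2 := mul_le_mul_of_nonneg_left le_l2hi (Nat.cast_nonneg (ex q + 1))
  rw [Rat.cast_div, Real.log_div (by positivity) h0.ne', Rat.cast_pow, Rat.cast_ofNat,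
    Real.log_pow] at h1
  rw [lgHi, Rat.cast_sub, Rat.cast_mul, Rat.cast_natCast]
  linarith

/-- upper bounds for `10 ^ 8 * log m`, `65 ≤ m ≤ 128` -/
def tbl : List ℕ := [
  417438728, 418965475, 420469263, 421950771, 423410651, 424849525, 426267988, 427666613,
  429045945, 430406510, 431748812, 433073335, 434380543, 435670883, 436944786, 438202664,
  439444916, 440671925, 441884061, 443081681, 444265126, 445434730, 446590813, 447733682,
  448863638, 449980968, 451085951, 452178858, 453259950, 454329479, 455387690, 456434820,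
  457471099, 458496749, 459511986, 460517019, 461512052, 462497282, 463472899, 464439091,
  465396036, 466343910, 467282884, 468213123, 469134789, 470048037, 470953021, 471849888,
  472738783, 473619846, 474493214, 475359020, 476217394, 477068463, 477912350, 478749175,
  479579055, 480402105, 481218436, 482028157, 482831374, 483628191, 484418709, 485203027]

/-- tabulated upper bound for the logarithm -/
def lgm (m : ℕ) : ℚ := if 65 ≤ m ∧ m ≤ 128 then (tbl.getD (m - 65) 0 : ℕ) / 100000000 else m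

lemma tbl_ok : ∀ i < 64, lgHi (i + 65 : ℕ) ≤ (tbl.getD i 0 : ℕ) / 100000000 := by
  decide +kernel

lemma le_lgm {m : ℕ} (hm : 0 < m) : Real.log m ≤ (lgm m : ℝ) := by
  unfold lgm
  split_ifs with h
  · have h1 := tbl_ok (m - 65) (by omega)
    rw [show m - 65 + 65 = m by omega] at h1
    exact (le_lgHi (q := m) (by positivity)).trans (Rat.cast_le.2 h1)
  · exact Real.log_le_self (Nat.cast_nonneg m)

/-- scaled value of `(p - a) ^ 2 + 1 / 100` -/
def zz (p a : ℚ) : ℕ := ((((p - a) ^ 2 + 1 / 100) * 1048576).num /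
  (((p - a) ^ 2 + 1 / 100) * 1048576).den).toNat

/-- the point of tangency and a bound for its logarithm -/
def tang (Z : ℕ) : ℚ × ℚ :=
  (((Z >>> (Z.log2 - 6) + 1) * 2 ^ (Z.log2 - 6) : ℕ) / 1048576,
    lgm (Z >>> (Z.log2 - 6) + 1) + (Z.log2 - 6 : ℕ) * l2hi - 20 * l2lo)

lemma tang_pos (Z : ℕ) : (0 : ℝ) < (tang Z).1 := by
  simp only [tang]
  push_cast
  positivity

lemma log_le_tang (Z : ℕ) {x : ℝ} (hx : 0 < x) :
    Real.log x ≤ x / (tang Z).1 - 1 + (tang Z).2 := by
  have h1 := Real.log_le_sub_one_of_pos (div_pos hx (tang_pos Z))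
  rw [Real.log_div hx.ne' (tang_pos Z).ne'] at h1
  have h2 := le_lgm (m := Z >>> (Z.log2 - 6) + 1) (Nat.succ_pos _)
  have h3 := mul_le_mul_of_nonneg_left le_l2hi (Nat.cast_nonneg (Z.log2 - 6))
  have h4 := l2lo_le
  have h5 : Real.log (tang Z).1 =
      Real.log (Z >>> (Z.log2 - 6) + 1 : ℕ) + (Z.log2 - 6 : ℕ) * Real.log 2 - 20 * Real.log 2 := by
    simp only [tang]
    rw [Rat.cast_div, Rat.cast_natCast, Nat.cast_mul, Real.log_div (by positivity) (by positivity),
      Real.log_mul (by positivity) (by positivity), Nat.cast_pow, Real.log_pow,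
      show ((1048576 : ℚ) : ℝ) = 2 ^ 20 by norm_num, Real.log_pow]
    norm_num
  have h6 : ((tang Z).2 : ℝ) =
      lgm (Z >>> (Z.log2 - 6) + 1) + (Z.log2 - 6 : ℕ) * (l2hi : ℝ) - 20 * l2lo := by
    simp only [tang]
    push_cast
    rfl
  linarith

/-- weighted sum of logarithms -/
noncomputable def SS (u : ℝ) (l : List (ℚ × ℚ)) : ℝ :=
  (l.map fun t => (t.1 : ℝ) * Real.log ((u - t.2) ^ 2 + 1 / 100)).sum

/-- its quadratic majorant, tangent near `p` -/
def TT (p u : ℚ) : List (ℚ × ℚ) → ℚ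
  | [] => 0
  | t :: l => t.1 * (((u - t.2) ^ 2 + 1 / 100) / (tang (zz p t.2)).1 - 1 + (tang (zz p t.2)).2) +
      TT p u l

lemma SS_le (p : ℚ) (l : List (ℚ × ℚ)) (hl : ∀ t ∈ l, 0 ≤ t.1) : ∃ A B C : ℝ, 0 ≤ A ∧
    (∀ u : ℝ, SS u l ≤ A * u ^ 2 + B * u + C) ∧ ∀ u : ℚ, (TT p u l : ℝ) = A * u ^ 2 + B * u + C := by
  induction l with
  | nil => exact ⟨0, 0, 0, le_rfl, fun u => by simp [SS], fun u => by simp [TT]⟩
  | cons t l ih =>
    obtain ⟨A, B, C, h1, h2, h3⟩ := ih fun s hs => hl s (List.mem_cons_of_mem _ hs)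
    have h4 : (0 : ℝ) ≤ t.1 := by exact_mod_cast hl t List.mem_cons_self
    have h5 := tang_pos (zz p t.2)
    refine ⟨A + t.1 / (tang (zz p t.2)).1, B - 2 * t.1 * t.2 / (tang (zz p t.2)).1,
      C + t.1 * ((t.2 ^ 2 + 1 / 100) / (tang (zz p t.2)).1 - 1 + (tang (zz p t.2)).2),
      by positivity, fun u => ?_, fun u => ?_⟩
    · have := mul_le_mul_of_nonneg_left (log_le_tang (zz p t.2)
        (x := (u - t.2) ^ 2 + 1 / 100) (by positivity)) h4
      have h6 := h2 u
      simp only [SS, List.map_cons, List.sum_cons] at h6 ⊢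
      refine (add_le_add this h6).trans_eq ?_
      ring
    · simp only [TT]
      push_cast
      rw [h3]
      ring

/-- evaluation points and weights -/
def lam : List (ℚ × ℚ) := [
  (21 / 50, 51 / 100), (1 / 2, 33 / 50), (5 / 8, 13 / 100), (3 / 4, 59 / 50), (7 / 8, 71 / 100),
  (1, 97 / 50), (5 / 4, 251 / 100), (3 / 2, 11 / 5), (7 / 4, 131 / 50), (2, 113 / 50),
  (9 / 4, 53 / 25), (5 / 2, 102 / 25), (3, 133 / 20), (7 / 2, 113 / 25), (4, 683 / 100),
  (9 / 2, 411 / 100), (5, 847 / 100), (6, 897 / 50), (7, 181 / 25), (8, 223 / 10),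
  (10, 3977 / 100), (12, 2237 / 100), (14, 821 / 25), (16, 1266 / 25), (20, 4379 / 50),
  (24, 937 / 20), (28, 961 / 25), (40, 66969 / 100)]

/-- weights and approximate roots of the auxiliary polynomials -/
def fix : List (ℚ × ℚ) := [
  (599 / 200, 0), (79 / 20, -1), (287 / 200, -2), (57 / 100, -191 / 500),
  (57 / 100, -1309 / 500), (91 / 200, 309 / 500), (91 / 200, -809 / 500), (7 / 25, 2071 / 5000),
  (7 / 25, -12071 / 5000)]

/-- all terms -/
def terms : List (ℚ × ℚ) := fix ++ lam.map fun p => (p.2 / 2, p.1)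

/-- the quadratic minorant -/
def GG (p u : ℚ) : ℚ :=
  199999 / 200000 * u ^ 2 - 56619287 / 1000000 * u + 440168601 / 125000 - TT p u terms

/-- the function to be bounded -/
noncomputable def FF (u : ℝ) : ℝ :=
  199999 / 200000 * u ^ 2 - 56619287 / 1000000 * u + 440168601 / 125000 - SS u terms

lemma FF_ge (p : ℚ) : ∃ A B C : ℝ, A ≤ 1 ∧ (∀ u : ℝ, A * u ^ 2 + B * u + C ≤ FF u) ∧
    ∀ u : ℚ, (GG p u : ℝ) = A * u ^ 2 + B * u + C := by
  obtain ⟨A, B, C, h1, h2, h3⟩ := SS_le p terms (by decide +kernel)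
  refine ⟨199999 / 200000 - A, -56619287 / 1000000 - B, 440168601 / 125000 - C, by linarith,
    fun u => ?_, fun u => ?_⟩
  · have := h2 u
    unfold FF
    linarith
  · unfold GG
    push_cast
    rw [h3]
    ring

/-- check on an interval -/
def ok (a b : ℚ) : Bool :=
  decide ((b - a) ^ 2 / 4 ≤ GG ((a + b) / 2) a) && decide ((b - a) ^ 2 / 4 ≤ GG ((a + b) / 2) b)

/-- check on a half line -/
def tail (a s : ℚ) : Bool :=
  decide (0 ≤ GG a a) && decide (2 * GG a (a + s) ≤ GG a a + GG a (a + 2 * s)) &&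
    decide (3 * GG a a + GG a (a + 2 * s) ≤ 4 * GG a (a + s))

lemma ok_sound {a b : ℚ} (h : ok a b = true) {u : ℝ} (h1 : a ≤ u) (h2 : u ≤ b) : 0 ≤ FF u := by
  simp only [ok, Bool.and_eq_true, decide_eq_true_eq] at h
  obtain ⟨A, B, C, a1, a2, a3⟩ := FF_ge ((a + b) / 2)
  have b1 := (Rat.cast_le (K := ℝ)).2 h.1
  have b2 := (Rat.cast_le (K := ℝ)).2 h.2
  rw [a3] at b1 b2
  push_cast at b1 b2
  refine le_trans ?_ (a2 u)
  rcases (h1.trans h2).eq_or_lt with h3 | h3
  · rw [show u = a by linarith]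
    nlinarith [sq_nonneg ((b : ℝ) - a)]
  · have c1 := mul_nonneg (sub_nonneg.2 h1) (sub_nonneg.2 h2)
    have c2 := mul_nonneg (sub_nonneg.2 h2) (sub_nonneg.2 b1)
    have c3 := mul_nonneg (sub_nonneg.2 h1) (sub_nonneg.2 b2)
    have c4 := mul_nonneg (mul_nonneg (sub_nonneg.2 a1) c1) (sub_pos.2 h3).le
    have c5 := mul_nonneg (sq_nonneg (u - (a + b) / 2)) (sub_pos.2 h3).le
    refine (mul_nonneg_iff_of_pos_left (sub_pos.2 h3)).1 ?_
    nlinarith

lemma tail_sound {a s : ℚ} (h : tail a s = true) {r : ℝ} (hr : 0 ≤ r) : 0 ≤ FF (a + r * s) := by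
  simp only [tail, Bool.and_eq_true, decide_eq_true_eq] at h
  obtain ⟨A, B, C, -, a2, a3⟩ := FF_ge a
  have b1 := (Rat.cast_le (K := ℝ)).2 h.1.1
  have b2 := (Rat.cast_le (K := ℝ)).2 h.1.2
  have b3 := (Rat.cast_le (K := ℝ)).2 h.2
  push_cast at b1 b2 b3
  simp only [a3] at b1 b2 b3
  push_cast at b1 b2 b3
  refine le_trans ?_ (a2 _)
  nlinarith [mul_nonneg (sq_nonneg r) (sub_nonneg.2 b2), mul_nonneg hr (sub_nonneg.2 b3)]

/-- check along a list of break points given in thousandths -/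
def chk (a : ℤ) : List ℤ → ℤ → Bool
  | [], z => ok (a / 1000) (z / 1000)
  | b :: l, z => ok (a / 1000) (b / 1000) && chk b l z

lemma chk_sound (l : List ℤ) {a z : ℤ} (h : chk a l z = true)
    (hz : ∀ u : ℝ, z / 1000 ≤ u → 0 ≤ FF u) (u : ℝ) (hu : a / 1000 ≤ u) : 0 ≤ FF u := by
  induction l generalizing a with
  | nil =>
    rcases le_total u (z / 1000) with h1 | h1
    · exact ok_sound h (by push_cast; exact hu) (by push_cast; exact h1)
    · exact hz u h1
  | cons b l ih =>
    simp only [chk, Bool.and_eq_true] at h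
    rcases le_total u (b / 1000) with h1 | h1
    · exact ok_sound h.1 (by push_cast; exact hu) (by push_cast; exact h1)
    · exact ih h.2 h1

/-- the terms with integer data -/
def tmN : List (ℕ × ℤ) := [
  (599, 0), (790, -10000), (287, -20000), (114, -3820), (114, -26180), (91, 6180), (91, -16180),
  (56, 4142), (56, -24142), (51, 4200), (66, 5000), (13, 6250), (118, 7500), (71, 8750),
  (194, 10000), (251, 12500), (220, 15000), (262, 17500), (226, 20000), (212, 22500),
  (408, 25000), (665, 30000), (452, 35000), (683, 40000), (411, 45000), (847, 50000),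
  (1794, 60000), (724, 70000), (2230, 80000), (3977, 100000), (2237, 120000), (3284, 140000),
  (5064, 160000), (8758, 200000), (4685, 240000), (3844, 280000), (66969, 400000)]

lemma terms_eq : terms = tmN.map fun t => ((t.1 : ℚ) / 200, (t.2 : ℚ) / 10000) := by
  decide +kernel

/-- scaled square -/
def sqN (u t : ℤ) : ℕ := Nat.add (Nat.mul (Int.sub u t).natAbs (Int.sub u t).natAbs) 1000000

/-- the table in one number -/
def tbN : ℕ := 0x1ceb9c531cdfa4951cd3949f1cc76c0e1cbb2a7d1caecf841ca25ab91c95cbaf1c8921f71c7c5d1e1c6f7caf1c6280321c55672c1c48311e1c3add861c2d6bdf1c1fdba01c122c3d1c045d251bf66dc51be85d831bda2bc41bcbd7e61bbd61441baec7331ba009031b9126021b821d741b72ee9b1b6398b21b541aed1b44747b1b34a4841b24aa2a1b1484871b0432ae1af3b3aa1ae3067f1ad22a281ac11d961aafdfb21a9e6f5d1a8ccb6a1a7af2a61a68e3d11a569d9d1a441eb51a3165b41a1e71281a0b3f9219f7cf6319e41eff19d02cb719bbf6cc19a77b6e1992b8b9197dacb5196855541952b075193cbbdb19267533190fda0f18f8e7e318e19c08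

lemma tbN_ok : ∀ i < 64, tbl.getD i 0 = Nat.mod (Nat.shiftRight tbN (Nat.mul 32 i)) 4294967296 := by
  decide +kernel

/-- scaled table -/
def lgN (m : ℕ) : ℕ := cond (Nat.ble 65 m && Nat.ble m 128)
  (Nat.mul (Nat.mod (Nat.shiftRight tbN (Nat.mul 32 (Nat.sub m 65))) 4294967296) 100)
  (Nat.mul m 10000000000)

/-- one step of a binary search -/
def stp (k : ℕ) (c : ℕ → ℕ → ℕ) (e z : ℕ) : ℕ :=
  cond (Nat.ble (Nat.pow 2 k) z) (c (Nat.add e k) (Nat.shiftRight z k)) (c e z)

/-- guess of the binary logarithm -/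
def lgG (Z : ℕ) : ℕ := stp 32 (stp 16 (stp 8 (stp 4 (stp 2 (stp 1 fun e _ => e))))) 0 Z

/-- the binary logarithm -/
def lgF (Z : ℕ) : ℕ := cond (Nat.beq (Nat.shiftRight Z (lgG Z)) 1) (lgG Z) Z.log2

lemma lgF_eq (Z : ℕ) : lgF Z = Z.log2 := by
  unfold lgF
  generalize lgG Z = e
  cases h : Nat.beq (Nat.shiftRight Z e) 1
  · rfl
  · have h1 : Z / 2 ^ e = 1 := (Nat.shiftRight_eq_div_pow Z e).symm.trans (Nat.eq_of_beq_eq_true h)
    have h2 := (Nat.div_eq_iff (by positivity)).1 h1
    have h3 : 0 < 2 ^ e := by positivity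
    rw [cond_true, Nat.log2_eq_log_two]
    exact (Nat.log_eq_of_pow_le_of_lt_pow (by omega) (by omega)).symm

/-- scaled bound for one term, `e` the exponent and `m` the mantissa -/
def twoN (x e m : ℕ) : ℕ :=
  Nat.add (Nat.add (Nat.succ (Nat.div (Nat.mul x 104857600) (Nat.mul m (Nat.pow 2 e)))) (lgN m))
    (Nat.mul e 6931471808)

/-- scaled bound for one term -/
def oneN (x Z : ℕ) : ℕ :=
  twoN x (Nat.sub (lgF Z) 6) (Nat.succ (Nat.shiftRight Z (Nat.sub (lgF Z) 6)))

lemma oneN_eq (x Z : ℕ) : oneN x Z =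
    x * 104857600 / ((Z >>> (Z.log2 - 6) + 1) * 2 ^ (Z.log2 - 6)) + 1 +
      lgN (Z >>> (Z.log2 - 6) + 1) + (Z.log2 - 6) * 6931471808 := by
  rw [oneN, lgF_eq]
  rfl

/-- scaled bound for the majorant -/
def TN (p u : ℤ) : List (ℕ × ℤ) → ℕ
  | [] => 0
  | t :: l => Nat.add
      (Nat.mul t.1 (oneN (sqN u t.2) (Nat.div (Nat.mul (sqN p t.2) 1048576) 100000000))) (TN p u l)

lemma sqN_cast (u t : ℤ) :
    ((u : ℚ) / 10000 - (t : ℚ) / 10000) ^ 2 + 1 / 100 = (sqN u t : ℚ) / 100000000 := by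
  have h : (((u - t).natAbs * (u - t).natAbs : ℕ) : ℚ) = (((u - t) * (u - t) : ℤ) : ℚ) := by
    rw [← Int.natAbs_mul_self, Int.cast_natCast]
  rw [show sqN u t = (u - t).natAbs * (u - t).natAbs + 1000000 from rfl, Nat.cast_add, h]
  push_cast
  ring

lemma zz_eq (p t : ℤ) : zz (p / 10000) (t / 10000) = sqN p t * 1048576 / 100000000 := by
  rw [zz, sqN_cast, ← Rat.floor_def',
    show (sqN p t : ℚ) / 100000000 * 1048576 = (sqN p t * 1048576 : ℕ) / (100000000 : ℕ) by
      push_cast; ring, Rat.floor_natCast_div_natCast, ← Int.natCast_div, Int.toNat_natCast]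

lemma lgm_eq (m : ℕ) : lgm m = (lgN m : ℚ) / 10000000000 := by
  unfold lgm lgN
  split_ifs with h
  · rw [tbN_ok _ (by omega), Nat.ble_eq_true_of_le h.1, Nat.ble_eq_true_of_le h.2]
    simp only [Bool.and_self, cond_true, Nat.mul_eq, Nat.sub_eq, Nat.cast_mul, Nat.cast_ofNat]
    ring
  · rw [show (Nat.ble 65 m && Nat.ble m 128) = false from Bool.eq_false_iff.2 (by simpa using h)]
    simp

lemma oneN_le (x Z : ℕ) : (x : ℚ) / 100000000 / (tang Z).1 - 1 + (tang Z).2 ≤
    ((oneN x Z : ℚ) - 148629436060) / 10000000000 := by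
  simp only [tang, oneN_eq, lgm_eq, l2hi, l2lo]
  have hD : 0 < (Z >>> (Z.log2 - 6) + 1) * 2 ^ (Z.log2 - 6) := by positivity
  generalize (Z >>> (Z.log2 - 6) + 1) * 2 ^ (Z.log2 - 6) = D at hD ⊢
  have h0 : (0 : ℚ) < D := by exact_mod_cast hD
  have h1 : ((x * 104857600 : ℕ) : ℚ) ≤ (D * (x * 104857600 / D + 1) : ℕ) :=
    Nat.cast_le.2 (Nat.lt_mul_div_succ _ hD).le
  have h2 : (x : ℚ) / 100000000 / (D / 1048576) = (x * 104857600 : ℕ) / D / 10000000000 := by
    push_cast
    field_simp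
    ring
  rw [Nat.cast_mul D, ← div_le_iff₀' h0] at h1
  rw [h2, Nat.cast_add _ (_ * 6931471808), Nat.cast_add _ (lgN _), Nat.cast_mul _ 6931471808,
    Nat.cast_ofNat]
  linarith

lemma TT_le (p u : ℤ) (l : List (ℕ × ℤ)) :
    TT (p / 10000) (u / 10000) (l.map fun t => ((t.1 : ℚ) / 200, (t.2 : ℚ) / 10000)) ≤
      ((TN p u l : ℚ) - 148629436060 * ((l.map Prod.fst).sum : ℕ)) / 2000000000000 := by
  induction l with
  | nil => simp [TT, TN]
  | cons t l ih =>
    simp only [List.map_cons, List.sum_cons, TT, zz_eq, sqN_cast]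
    rw [show TN p u (t :: l) = t.1 * oneN (sqN u t.2) (sqN p t.2 * 1048576 / 100000000) + TN p u l
      from rfl]
    have h := mul_le_mul_of_nonneg_left (oneN_le (sqN u t.2) (sqN p t.2 * 1048576 / 100000000))
      (show (0 : ℚ) ≤ t.1 / 200 by positivity)
    generalize oneN (sqN u t.2) (sqN p t.2 * 1048576 / 100000000) = y at h ⊢
    generalize (l.map Prod.fst).sum = w at ih ⊢
    push_cast
    linarith

/-- integer check at one end point -/
def endN (a b u : ℤ) : Bool :=
  decide ((b - a) * (b - a) * 500000 + (TN (5 * (a + b)) (10 * u) tmN : ℕ) ≤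
    1999990 * (u * u) - 113238574000 * u + 7042697616000000 + 148629436060 * 110914)

lemma endN_sound {a b u : ℤ} (h : endN a b u = true) :
    ((b : ℚ) / 1000 - a / 1000) ^ 2 / 4 ≤ GG ((a / 1000 + b / 1000) / 2) (u / 1000) := by
  have h1 := (Int.cast_le (R := ℚ)).2 (of_decide_eq_true h)
  have h2 := TT_le (5 * (a + b)) (10 * u) tmN
  rw [← terms_eq, show ((5 * (a + b) : ℤ) : ℚ) / 10000 = (a / 1000 + b / 1000) / 2 by
    push_cast; ring, show ((10 * u : ℤ) : ℚ) / 10000 = u / 1000 by push_cast; ring,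
    show (tmN.map Prod.fst).sum = 110914 by decide +kernel] at h2
  generalize TN (5 * (a + b)) (10 * u) tmN = y at h1 h2
  push_cast at h1 h2
  unfold GG
  linarith

/-- integer check along a list of break points -/
def chkN (a : ℤ) : List ℤ → ℤ → Bool
  | [], z => endN a z a && endN a z z
  | b :: l, z => endN a b a && endN a b b && chkN b l z

lemma chkN_sound {l : List ℤ} {a z : ℤ} (h : chkN a l z = true) : chk a l z = true := by
  induction l generalizing a with
  | nil =>
    simp only [chkN, chk, ok, Bool.and_eq_true, decide_eq_true_eq] at h ⊢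
    exact ⟨endN_sound h.1, endN_sound h.2⟩
  | cons b l ih =>
    simp only [chkN, chk, ok, Bool.and_eq_true, decide_eq_true_eq] at h ⊢
    exact ⟨⟨endN_sound h.1.1, endN_sound h.1.2⟩, ih h.2⟩

lemma chk0 : chk (-8000) [
    -7000, -5000, -3735, -3136, -2924, -2746, -2596, -2428, -2323, -2206, -2075, -1879, -1787] (-1684) = true := by
  exact chkN_sound (by decide +kernel)

lemma chk1 : chk (-1684) [
    -1569, -1440, -1296, -1080, -837, -684, -588, -480, -390, -255, -104, 122, 228] 317 = true := by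
  exact chkN_sound (by decide +kernel)

lemma chk2 : chk 317 [
    416, 499, 568, 645, 731, 803, 884, 974, 1049, 1112, 1182, 1287, 1352] 1424 = true := by
  exact chkN_sound (by decide +kernel)

lemma chk3 : chk 1424 [
    1505, 1572, 1647, 1731, 1825, 1883, 1948, 2045, 2105, 2172, 2272, 2384] 2510 = true := by
  exact chkN_sound (by decide +kernel)

lemma chk4 : chk 2510 [
    2615, 2680, 2752, 2833, 2954, 3089, 3202, 3272, 3330, 3417, 3591, 3672, 3762] 3837 = true := by
  exact chkN_sound (by decide +kernel)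

lemma chk5 : chk 3837 [
    3949, 4117, 4222, 4287, 4359, 4440, 4602, 4784, 4937, 5108, 5252, 5342, 5443] 5556 = true := by
  exact chkN_sound (by decide +kernel)

lemma chk6 : chk 5556 [
    5782, 6036, 6249, 6428, 6540, 6610, 6688, 6775, 6905, 7100, 7319, 7565, 7841] 8151 = true := by
  exact chkN_sound (by decide +kernel)

lemma chk7 : chk 8151 [
    8412, 8631, 8734, 8849, 8978, 9171, 9557, 9882, 10155, 10564, 10908, 11070, 11172] 11286 = true := by
  exact chkN_sound (by decide +kernel)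

lemma chk8 : chk 11286 [
    11457, 11713, 12001, 12244, 12517, 12688, 12796, 12917, 13052, 13322, 13727, 14068] 14750 = true := by
  exact chkN_sound (by decide +kernel)

lemma chk9 : chk 14750 [
    15517, 16001, 16545, 17004, 17391, 17574, 17779, 18009, 18469, 19159, 19935, 20425, 21160] 21779 = true := by
  exact chkN_sound (by decide +kernel)

lemma chk10 : chk 21779 [
    22170, 22609, 22978, 23531, 23996, 24518, 25105, 25476, 25710, 25907, 26202, 26792, 27677] 28096 = true := by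
  exact chkN_sound (by decide +kernel)

lemma chk11 : chk 28096 [
    28934, 30610, 33962, 37733, 40118, 43695, 49060, 52454, 54064, 55082, 55940, 56663, 58109] 60000 = true := by
  exact chkN_sound (by decide +kernel)

lemma tail_left : tail (-8) (-1) = true := by decide +kernel

lemma tail_right : tail 60 1 = true := by decide +kernel

theorem FF_nonneg (u : ℝ) : 0 ≤ FF u := by
  rcases le_total u (-8) with h | h
  · have := tail_sound tail_left (r := -8 - u) (by linarith)
    push_cast at this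
    rwa [show (-8 : ℝ) + (-8 - u) * -1 = u by ring] at this
  refine chk_sound _ chk0 (chk_sound _ chk1 (chk_sound _ chk2 (chk_sound _ chk3 (chk_sound _ chk4
    (chk_sound _ chk5 (chk_sound _ chk6 (chk_sound _ chk7 (chk_sound _ chk8 (chk_sound _ chk9
    (chk_sound _ chk10 (chk_sound _ chk11 fun v hv => ?_))))))))))) u (by push_cast; linarith)
  have := tail_sound tail_right (r := v - 60) (by push_cast at hv; linarith)
  push_cast at this
  rwa [show (60 : ℝ) + (v - 60) * 1 = v by ring] at this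

end Pool.Agent.Work.MP_ce8257_co.Hedge
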