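import Pool.Agent.Work.MP_ce8257_co.Hedge.Roots
import Pool.Agent.Work.MP_ce8257_co.Graph

-- merged part: Pool.Agent.Work.MP_ce8257_co.Hedge.Forest
section
/-!
A lower bound for the domination polynomial at positive points from a spanning star forest.
-/

open Finset

namespace Pool.Agent.Work.MP_ce8257_co.Hedge

variable {V : Type} [DecidableEq V] (G : SimpleGraph V) [DecidableRel G.Adj]

/-- subsets of `W` that dominate `W` -/
def dm (W : Finset V) : Finset (Finset V) :=
  {S ∈ W.powerset | ∀ v ∈ W, v ∈ S ∨ ∃ u ∈ S, G.Adj v u}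

lemma mem_dm {W S : Finset V} : S ∈ dm G W ↔ S ⊆ W ∧ ∀ v ∈ W, v ∈ S ∨ ∃ u ∈ S, G.Adj v u := by
  simp [dm]

lemma union_mem_dm {A B S T : Finset V} (hS : S ∈ dm G A) (hT : T ∈ dm G B) :
    S ∪ T ∈ dm G (A ∪ B) := by
  rw [mem_dm] at *
  refine ⟨union_subset_union hS.1 hT.1, fun v hv => ?_⟩
  rcases mem_union.1 hv with h | h
  · exact (hS.2 v h).imp (mem_union_left _) fun ⟨u, a, b⟩ => ⟨u, mem_union_left _ a, b⟩
  · exact (hT.2 v h).imp (mem_union_right _) fun ⟨u, a, b⟩ => ⟨u, mem_union_right _ a, b⟩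

lemma dm_mul {A B : Finset V} (h : Disjoint A B) {x : ℝ} (hx : 0 ≤ x) :
    (∑ S ∈ dm G A, x ^ #S) * ∑ S ∈ dm G B, x ^ #S ≤ ∑ S ∈ dm G (A ∪ B), x ^ #S := by
  have inj : Set.InjOn (fun p : Finset V × Finset V => p.1 ∪ p.2) ↑(dm G A ×ˢ dm G B) := by
    have key : ∀ p ∈ dm G A ×ˢ dm G B, (p.1 ∪ p.2) ∩ A = p.1 ∧ (p.1 ∪ p.2) ∩ B = p.2 :=
      fun p hp => by
        have h1 := ((mem_dm G).1 (mem_product.1 hp).1).1
        have h2 := ((mem_dm G).1 (mem_product.1 hp).2).1
        rw [union_inter_distrib_right, union_inter_distrib_right, inter_eq_left.2 h1,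
          inter_eq_left.2 h2, disjoint_iff_inter_eq_empty.1 (h.symm.mono_left h2),
          disjoint_iff_inter_eq_empty.1 (h.mono_left h1)]
        simp
    intro p hp q hq e
    have e' : p.1 ∪ p.2 = q.1 ∪ q.2 := e
    exact Prod.ext (by rw [← (key p hp).1, e', (key q hq).1])
      (by rw [← (key p hp).2, e', (key q hq).2])
  rw [sum_mul_sum, ← sum_product']
  refine le_trans (le_of_eq ?_) (sum_le_sum_of_subset_of_nonneg
    (s := (dm G A ×ˢ dm G B).image fun p => p.1 ∪ p.2) (fun S hS => ?_) fun _ _ _ => by positivity)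
  · rw [sum_image inj]
    refine sum_congr rfl fun p hp => ?_
    rw [card_union_of_disjoint (h.mono ((mem_dm G).1 (mem_product.1 hp).1).1
      ((mem_dm G).1 (mem_product.1 hp).2).1), pow_add]
  · obtain ⟨p, hp, rfl⟩ := mem_image.1 hS
    exact union_mem_dm G (mem_product.1 hp).1 (mem_product.1 hp).2

lemma rho_pow {x : ℝ} (hx : 0 < x) (m : ℕ) : (x + 2) * rho x ^ m ≤ (1 + x) ^ (m + 1) + x ^ m := by
  induction m with
  | zero => simp; linarith
  | succ m ih =>
    have r : 0 < rho x := by unfold rho; positivity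
    have e : (x + 2) * rho x = x ^ 2 + 3 * x + 1 := by unfold rho; field_simp
    have h1 := mul_le_mul_of_nonneg_right ih r.le
    have h2 := mul_le_mul_of_nonneg_left (pow_le_pow_left₀ hx.le (show x ≤ 1 + x by linarith) m)
      (show 0 ≤ 1 + x by linarith)
    refine le_of_mul_le_mul_left (a := x + 2) ?_ (by linarith)
    calc (x + 2) * ((x + 2) * rho x ^ (m + 1)) = (x + 2) * ((x + 2) * rho x ^ m * rho x) := by ring
      _ ≤ (x + 2) * (((1 + x) ^ (m + 1) + x ^ m) * rho x) := by gcongr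
      _ = ((1 + x) ^ (m + 1) + x ^ m) * (x ^ 2 + 3 * x + 1) := by rw [← e]; ring
      _ ≤ _ := by simp only [pow_succ] at *; nlinarith

lemma dm_star {c : V} {L : Finset V} (hc : c ∉ L) (hL : L.Nonempty) (h : ∀ v ∈ L, G.Adj v c)
    {x : ℝ} (hx : 0 < x) :
    x * (x + 2) / rho x ^ 2 * rho x ^ #(insert c L) ≤ ∑ S ∈ dm G (insert c L), x ^ #S := by
  have r : 0 < rho x := by unfold rho; positivity
  obtain ⟨m, hm⟩ : ∃ m, #L = m + 1 := ⟨#L - 1, by have := hL.card_pos; omega⟩
  have h1 : L ∉ L.powerset.image (insert c) := fun h => by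
    obtain ⟨T, -, hT⟩ := mem_image.1 h
    exact hc (hT ▸ mem_insert_self c T)
  have h2 : ∑ T ∈ L.powerset, x ^ #T = (1 + x) ^ #L := by
    simpa using (prod_one_add (f := fun _ => x) L).symm
  refine le_trans ?_ (sum_le_sum_of_subset_of_nonneg
    (s := insert L (L.powerset.image (insert c))) (fun S hS => ?_) fun _ _ _ => by positivity)
  · rw [sum_insert h1, sum_image fun S hS T hT e => ?_, sum_congr rfl (g := fun T => x * x ^ #T)
      fun T hT => ?_, ← mul_sum, h2, card_insert_of_notMem hc, hm]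
    · have := mul_le_mul_of_nonneg_left (rho_pow hx m) hx.le
      rw [show x * (x + 2) / rho x ^ 2 * rho x ^ (m + 1 + 1) = x * ((x + 2) * rho x ^ m) by
        field_simp; ring, pow_succ x]
      linarith
    · rw [card_insert_of_notMem fun h => hc (mem_powerset.1 hT h), pow_succ']
    · rw [← erase_insert (s := S) fun h => hc (mem_powerset.1 hS h), e,
        erase_insert fun h => hc (mem_powerset.1 hT h)]
  · rw [mem_dm]
    rcases mem_insert.1 hS with rfl | hS
    · refine ⟨subset_insert _ _, fun v hv => ?_⟩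
      rcases mem_insert.1 hv with rfl | hv
      · obtain ⟨u, hu⟩ := hL
        exact Or.inr ⟨u, hu, (h u hu).symm⟩
      · exact Or.inl hv
    · obtain ⟨T, hT, rfl⟩ := mem_image.1 hS
      refine ⟨insert_subset_insert _ (mem_powerset.1 hT), fun v hv => ?_⟩
      rcases mem_insert.1 hv with rfl | hv
      · exact Or.inl (mem_insert_self _ _)
      · exact Or.inr ⟨c, mem_insert_self _ _, h v hv⟩

lemma exists_star {W : Finset V} (hW : W.Nonempty) (h : ∀ v ∈ W, ∃ w ∈ W, G.Adj v w) :
    ∃ c ∈ W, ∃ L ⊆ W, c ∉ L ∧ L.Nonempty ∧ (∀ v ∈ L, G.Adj v c) ∧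
      ∀ v ∈ W \ insert c L, ∃ w ∈ W \ insert c L, G.Adj v w := by
  have key : ∀ B : Finset V, ∀ v ∈ W \ (B ∪ {v ∈ W \ B | ∀ w ∈ W \ B, ¬ G.Adj v w}),
      ∃ w ∈ W \ (B ∪ {v ∈ W \ B | ∀ w ∈ W \ B, ¬ G.Adj v w}), G.Adj v w := fun B v hv => by
    simp only [mem_sdiff, mem_union, mem_filter, not_or, not_and, not_forall, not_not] at hv ⊢
    obtain ⟨w, h1, h2⟩ := hv.2.2 ⟨hv.1, hv.2.1⟩
    exact ⟨w, ⟨h1.1, h1.2, fun _ => ⟨v, ⟨hv.1, hv.2.1⟩, h2.symm⟩⟩, h2⟩
  by_cases h1 : ∃ c ∈ W, ({v ∈ W \ {c} | ∀ w ∈ W \ {c}, ¬ G.Adj v w} : Finset V).Nonempty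
  · obtain ⟨c, hc, h1⟩ := h1
    refine ⟨c, hc, _, (filter_subset _ _).trans sdiff_subset, by simp, h1, fun v hv => ?_,
      by simpa only [insert_eq] using key {c}⟩
    obtain ⟨h2, h3⟩ := mem_filter.1 hv
    obtain ⟨w, h4, h5⟩ := h v (mem_sdiff.1 h2).1
    by_contra h6
    exact h3 w (mem_sdiff.2 ⟨h4, fun e => h6 (mem_singleton.1 e ▸ h5)⟩) h5
  · obtain ⟨v, hv⟩ := hW
    obtain ⟨c, hc, hvc⟩ := h v hv
    refine ⟨c, hc, insert v {y ∈ W \ {c, v} | ∀ w ∈ W \ {c, v}, ¬ G.Adj y w},
      insert_subset hv ((filter_subset _ _).trans sdiff_subset), by simp [hvc.ne'],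
      insert_nonempty _ _, fun y hy => ?_, by simpa only [insert_eq, union_assoc] using key {c, v}⟩
    rcases mem_insert.1 hy with rfl | hy
    · exact hvc
    obtain ⟨h2, h3⟩ := mem_filter.1 hy
    by_contra h6
    refine h1 ⟨v, hv, y, mem_filter.2 ⟨?_, fun w hw h7 => h3 w ?_ h7⟩⟩
    · simp only [mem_sdiff, mem_insert, mem_singleton, not_or] at h2 ⊢
      exact ⟨h2.1, h2.2.2⟩
    · simp only [mem_sdiff, mem_insert, mem_singleton, not_or] at hw ⊢
      exact ⟨hw.1, fun e => h6 (e ▸ h7), hw.2⟩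

theorem forest (W : Finset V) (h : ∀ v ∈ W, ∃ w ∈ W, G.Adj v w) : ∃ S ∈ dm G W, ∀ x : ℝ, 0 < x →
    (x * (x + 2) / rho x ^ 2) ^ #S * rho x ^ #W ≤ ∑ S ∈ dm G W, x ^ #S := by
  induction W using Finset.strongInduction with
  | H W ih =>
    rcases W.eq_empty_or_nonempty with rfl | hW
    · exact ⟨∅, by simp [dm], fun x _ => by simp [dm]⟩
    obtain ⟨c, hc, L, h1, h2, h3, h4, h5⟩ := exists_star G hW h
    have h6 : insert c L ⊆ W := insert_subset hc h1
    obtain ⟨S, a1, a2⟩ := ih _ (sdiff_ssubset h6 (insert_nonempty _ _)) h5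
    have h7 : {c} ∈ dm G (insert c L) := (mem_dm G).2 ⟨by simp, fun v hv =>
      (mem_insert.1 hv).imp mem_singleton.2 fun hv => ⟨c, mem_singleton_self c, h4 v hv⟩⟩
    have h8 : Disjoint {c} S := disjoint_sdiff.mono ((mem_dm G).1 h7).1 ((mem_dm G).1 a1).1
    refine ⟨{c} ∪ S, union_sdiff_of_subset h6 ▸ union_mem_dm G h7 a1, fun x hx => ?_⟩
    have r : 0 < rho x := by unfold rho; positivity
    have b1 := dm_mul G (disjoint_sdiff (s := insert c L) (t := W)) hx.le
    have b2 := card_union_of_disjoint (disjoint_sdiff (s := insert c L) (t := W))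
    rw [union_sdiff_of_subset h6] at b1 b2
    refine le_trans ?_ b1
    refine le_trans (le_of_eq ?_) (mul_le_mul (dm_star G h2 h3 h4 hx) (a2 x hx) (by positivity)
      (sum_nonneg fun _ _ => by positivity))
    rw [card_union_of_disjoint h8, card_singleton, b2]
    ring

end Pool.Agent.Work.MP_ce8257_co.Hedge
end

-- merged part: Pool.Agent.Work.MP_ce8257_co.Hedge.Main
section
/-!
Domination roots in a thin strip are real.
-/

open Polynomial Finset

namespace Pool.Agent.Work.MP_ce8257_co.Hedge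

lemma esymm_two (s : Multiset ℂ) :
    (s.map fun r => r ^ 2).sum = s.sum ^ 2 - 2 * s.esymm 2 ∧ s.esymm 1 = s.sum := by
  have h : ∀ s : Multiset ℂ, s.esymm 1 = s.sum := fun s => by
    simp [Multiset.esymm, Multiset.powersetCard_one, Multiset.map_map]
  refine ⟨?_, h s⟩
  induction s using Multiset.induction_on with
  | empty => simp [Multiset.esymm, Multiset.powersetCard_zero_right]
  | cons a s ih =>
    have e : (a ::ₘ s).esymm 2 = s.esymm 2 + a * s.sum := by
      rw [← h s]
      simp only [Multiset.esymm, Multiset.powersetCard_cons, Multiset.map_add, Multiset.sum_add,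
        Multiset.map_map, Function.comp_def, Multiset.prod_cons, Multiset.sum_map_mul_left]
    rw [Multiset.map_cons, Multiset.sum_cons, Multiset.sum_cons, ih, e]
    ring

lemma power_sumsC (p : ℂ[X]) (n : ℕ) (hm : p.Monic) (hd : p.natDegree = n + 2) :
    p.roots.sum = -p.coeff (n + 1) ∧
      (p.roots.map fun r => r ^ 2).sum = p.coeff (n + 1) ^ 2 - 2 * p.coeff n := by
  have h1 := coeff_eq_esymm_roots_of_splits (IsAlgClosed.splits p) (k := n + 1) (by omega)
  have h2 := coeff_eq_esymm_roots_of_splits (IsAlgClosed.splits p) (k := n) (by omega)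
  rw [hm.leadingCoeff, hd] at h1 h2
  rw [show n + 2 - (n + 1) = 1 by omega, (esymm_two _).2] at h1
  rw [show n + 2 - n = 2 by omega] at h2
  refine ⟨by rw [h1]; ring, ?_⟩
  rw [(esymm_two _).1, h1, h2]
  ring

lemma sum_psi (s : Multiset ℂ) : (s.map psi).sum = ((s.map fun r => r ^ 2).sum + s.sum).re -
    2 * s.card - (s.map (HH lam)).sum + s.count 0 * (2 + HH lam 0) -
    (s.map fun r => r.im ^ 2).sum := by
  induction s using Multiset.induction_on with
  | empty => simp
  | cons a s ih =>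
    simp only [Multiset.map_cons, Multiset.sum_cons, ih, Multiset.card_cons, Multiset.count_cons,
      Complex.add_re]
    rcases eq_or_ne a 0 with rfl | ha
    · simp [psi]
      ring
    · rw [psi, if_neg ha, if_neg ha.symm, phi]
      simp only [Complex.add_re, Complex.sub_re, Complex.re_ofNat]
      push_cast
      ring

lemma sum_hh (s : Multiset ℂ) (x : ℝ) : (s.map (hh x)).sum =
    (s.map fun r : ℂ => Real.log ‖x - r‖).sum + (s.sum.re + s.card) * Real.log (x + 2) -
      (s.sum.re + 2 * s.card) * Real.log (rho x) := by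
  induction s using Multiset.induction_on with
  | empty => simp
  | cons a s ih =>
    simp only [Multiset.map_cons, Multiset.sum_cons, ih, Multiset.card_cons, Complex.add_re]
    rw [hh, norm_sub_rev]
    push_cast
    ring

variable {V : Type} [Fintype V] [DecidableEq V] (G : SimpleGraph V) [DecidableRel G.Adj]

lemma exists_leaves (hiso : ∀ v, ∃ w, G.Adj v w) [Nonempty V] :
    ∃ L : Finset V, #L = #(badPairs G) ∧ Lᶜ ∈ doms G := by
  choose! φ hφ using bad_end G hiso
  refine ⟨(badPairs G).image φ, card_image_of_injOn fun T hT T' hT' h => by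
    rw [(hφ T hT).2, (hφ T' hT').2, h], (mem_doms G _).2 fun w => ?_⟩
  by_cases hw : w ∈ (badPairs G).image φ
  · obtain ⟨u, hu⟩ := hiso w
    refine Or.inr ⟨u, mem_compl.2 fun h => ?_, hu⟩
    obtain ⟨T, hT, rfl⟩ := mem_image.1 hw
    obtain ⟨T', hT', rfl⟩ := mem_image.1 h
    have e : T = T' := by
      rw [(hφ T hT).2, (hφ T' hT').2]
      ext x
      simp only [mem_insert, SimpleGraph.mem_neighborFinset]
      constructor
      · rintro (rfl | hx)
        · exact Or.inr hu.symm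
        · exact Or.inl (leaf_unique G (hφ T hT).1 hx hu)
      · rintro (rfl | hx)
        · exact Or.inr hu
        · exact Or.inl (leaf_unique G (hφ T' hT').1 hx hu.symm)
    exact hu.ne (by rw [e])
  · exact Or.inl (mem_compl.2 hw)

lemma count_zero_le {S : Finset V} (hS : S ∈ doms G) :
    ((domPoly G).aroots ℂ).count 0 ≤ #S := by
  rw [aroots, count_roots]
  by_contra hlt
  have hdvd := pow_rootMultiplicity_dvd ((domPoly G).map (algebraMap ℤ ℂ)) 0
  rw [C_0, sub_zero, X_pow_dvd_iff] at hdvd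
  have h0 := hdvd _ (not_le.1 hlt)
  rw [coeff_map, coeff_domPoly] at h0
  simp only [eq_intCast, Int.cast_natCast, Nat.cast_eq_zero, card_eq_zero] at h0
  exact notMem_empty S (h0 ▸ mem_filter.2 ⟨hS, rfl⟩)

theorem strip (hiso : ∀ v, ∃ w, G.Adj v w)
    (hs : ∀ z : ℂ, ∑ S ∈ doms G, z ^ #S = 0 → |z.im| ≤ 1 / 10) (z : ℂ)
    (hz : ∑ S ∈ doms G, z ^ #S = 0) : z.im = 0 := by
  have hm := monic_domPoly G
  have hr : ∀ r, r ∈ (domPoly G).aroots ℂ ↔ ∑ S ∈ doms G, r ^ #S = 0 := fun r => by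
    rw [mem_aroots, aeval_domPoly, and_iff_right hm.ne_zero]
  have hcard : ((domPoly G).aroots ℂ).card = Fintype.card V := by
    rw [aroots, ← (IsAlgClosed.splits _).natDegree_eq_card_roots, hm.natDegree_map,
      natDegree_domPoly]
  have : Nonempty V := by
    rw [← Fintype.card_pos_iff, ← hcard, Multiset.card_pos_iff_exists_mem]
    exact ⟨z, (hr z).2 hz⟩
  obtain ⟨m, hn⟩ : ∃ m, Fintype.card V = m + 2 := by
    obtain ⟨v⟩ := this
    obtain ⟨w, hw⟩ := hiso v
    have : 1 < Fintype.card V := Fintype.one_lt_card_iff.2 ⟨v, w, hw.ne⟩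
    exact ⟨Fintype.card V - 2, by omega⟩
  have pos : ∀ x : ℝ, 0 < x → 0 < ∑ S ∈ doms G, x ^ #S := fun x hx =>
    sum_pos (fun S _ => pow_pos hx _) ⟨univ, univ_mem_doms G⟩
  have ev : ∀ x : ℝ, aeval (x : ℂ) (domPoly G) = ((∑ S ∈ doms G, x ^ #S : ℝ) : ℂ) := fun x => by
    rw [aeval_domPoly]
    push_cast
    rfl
  have hp : ∀ x : ℝ, 0 < x → aeval (x : ℂ) (domPoly G) ≠ 0 := fun x hx => by
    rw [ev]
    exact_mod_cast (pos x hx).ne'
  have key := sss _ _ rfl hm (fun r h => hs r ((hr r).1 h)) hp (eval_neg_one_ne G)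
  obtain ⟨s1, s2⟩ := power_sumsC ((domPoly G).map (algebraMap ℤ ℂ)) m (hm.map _)
    (by rw [hm.natDegree_map, natDegree_domPoly, hn])
  have c1 : ((domPoly G).map (algebraMap ℤ ℂ)).coeff (m + 1) = m + 2 := by
    rw [coeff_map, coeff_pred G hiso m hn]
    simp
  have c2 : 2 * ((domPoly G).map (algebraMap ℤ ℂ)).coeff m =
      (m + 2) * (m + 1) - 2 * #(badPairs G) := by
    rw [coeff_map, eq_intCast]
    exact_mod_cast coeff_pred_pred G m hn
  rw [c1, ← aroots] at s1 s2
  rw [c2] at s2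
  obtain ⟨L, l1, l2⟩ := exists_leaves G hiso
  have l3 := count_zero_le G l2
  have l4 := card_le_univ L
  rw [card_compl] at l3
  have l5 : (((domPoly G).aroots ℂ).count 0 : ℝ) + #(badPairs G) ≤ m + 2 := by
    exact_mod_cast (by omega : ((domPoly G).aroots ℂ).count 0 + #(badPairs G) ≤ m + 2)
  obtain ⟨S, f1, f2⟩ := forest G univ fun v _ => (hiso v).imp fun w hw => ⟨mem_univ _, hw⟩
  have e : dm G univ = doms G := by
    ext S
    simp [mem_dm, mem_doms]
  rw [e] at f1 f2
  have g1 : (((domPoly G).aroots ℂ).count 0 : ℝ) ≤ #S := by exact_mod_cast count_zero_le G f1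
  have g2 := HH_sum_le ((domPoly G).aroots ℂ) (((domPoly G).aroots ℂ).count 0) 0 lam
    (fun p h => (lam_pos p h).2) fun p h => by
      have hx : (21 / 50 : ℝ) ≤ p.1 := by simpa using (Rat.cast_le (K := ℝ)).2 (lam_pos p h).1
      generalize (p.1 : ℝ) = x at hx
      have h0 : 0 < x := by linarith
      have r : 0 < rho x := by unfold rho; positivity
      have a1 : hh x 0 = Real.log (x * (x + 2) / rho x ^ 2) := by
        rw [Real.log_div (by positivity) (by positivity), Real.log_mul h0.ne' (by positivity),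
          Real.log_pow, hh]
        simp
      have a2 : 0 ≤ hh x 0 := by
        rw [a1]
        refine Real.log_nonneg ((one_le_div (by positivity)).2 ?_)
        rw [rho, div_pow, div_le_iff₀ (by positivity)]
        nlinarith
      have a3 := Real.log_le_log (by positivity) (f2 x h0)
      rw [Real.log_mul (by positivity) (by positivity), Real.log_pow, Real.log_pow, ← a1, card_univ,
        hn] at a3
      have a4 : aeval (x : ℂ) (domPoly G) =
          (((domPoly G).aroots ℂ).map fun r : ℂ => x - r).prod := by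
        rw [← eval_map_algebraMap, (IsAlgClosed.splits _).eval_eq_prod_roots_of_monic (hm.map _)]
      have a5 := log_norm_prod ((domPoly G).aroots ℂ) (fun r => x - r) fun r h1 h2 =>
        hp x h0 (sub_eq_zero.1 h2 ▸ (mem_aroots.1 h1).2)
      rw [← a4, ev, Complex.norm_real, Real.norm_eq_abs, Real.log_abs] at a5
      rw [sum_hh, ← a5, s1, hcard, hn]
      have a6 := mul_le_mul_of_nonneg_right g1 a2
      simp only [Complex.neg_re, Complex.add_re, Complex.natCast_re, Complex.re_ofNat]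
      push_cast at a3 ⊢
      linarith
  rw [sum_psi, s1, s2, hcard, hn, show ((m : ℂ) + 2) ^ 2 - ((m + 2) * (m + 1) - 2 * #(badPairs G)) +
    -(m + 2) = ((2 * #(badPairs G) : ℝ) : ℂ) by push_cast; ring, Complex.ofReal_re] at key
  have g3 := Multiset.single_le_sum (s := ((domPoly G).aroots ℂ).map fun r => r.im ^ 2)
    (fun y hy => by obtain ⟨r, -, rfl⟩ := Multiset.mem_map.1 hy; positivity) _
    (Multiset.mem_map_of_mem _ ((hr z).2 hz))
  push_cast at key
  exact pow_eq_zero_iff two_ne_zero |>.1 (le_antisymm (by linarith) (sq_nonneg _))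

end Pool.Agent.Work.MP_ce8257_co.Hedge
end
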