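import Pool.Agent.Work.MP_ce8257_co.Hedge.Check

/-!
The pointwise inequality in the strip.
-/

namespace Pool.Agent.Work.MP_ce8257_co.Hedge

/-- growth rate per additional leaf -/
noncomputable def rho (x : ℝ) : ℝ := (x ^ 2 + 3 * x + 1) / (x + 2)

/-- the potential attached to a positive point -/
noncomputable def hh (x : ℝ) (z : ℂ) : ℝ :=
  Real.log ‖z - x‖ + (z.re + 1) * Real.log (x + 2) - (z.re + 2) * Real.log (rho x)

/-- weighted sum of potentials -/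
noncomputable def HH (l : List (ℚ × ℚ)) (z : ℂ) : ℝ := (l.map fun p => (p.2 : ℝ) * hh p.1 z).sum

/-- the weight of a nonzero root -/
noncomputable def phi (z : ℂ) : ℝ := (z ^ 2 + z - 2).re - HH lam z

variable {z : ℂ}

lemma two_log {a c : ℝ} (h : z - a ≠ 0) (hc : (z.re - a) ^ 2 + z.im ^ 2 ≤ c) :
    2 * Real.log ‖z - a‖ ≤ Real.log c := by
  have h1 : ‖z - a‖ ^ 2 = (z.re - a) ^ 2 + z.im ^ 2 := by
    rw [Complex.sq_norm, Complex.normSq_apply]
    simp [sq]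
  have := Real.log_le_log (pow_pos (norm_pos_iff.2 h) 2) (h1.trans_le hc)
  rwa [Real.log_pow, Nat.cast_ofNat] at this

lemma log_exact (hz : z.im ^ 2 ≤ 1 / 100) {a : ℝ} (h : z - a ≠ 0) :
    2 * Real.log ‖z - a‖ ≤ Real.log ((z.re - a) ^ 2 + 1 / 100) := two_log h (by linarith only [hz])

lemma log_approx (hz : z.im ^ 2 ≤ 1 / 100) {a b : ℝ} (h : z - a ≠ 0) (h1 : a - b ≤ 1 / 20000)
    (h2 : b - a ≤ 1 / 20000) :
    2 * Real.log ‖z - a‖ ≤ Real.log ((z.re - b) ^ 2 + 1 / 100) + 1 / 1000 := by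
  have h3 := two_log (c := (1 + 1 / 1000) * ((z.re - b) ^ 2 + 1 / 100)) h (by
    nlinarith only [hz, h1, h2, sq_nonneg (z.re - b + 1000 * (a - b)),
      mul_nonneg (sub_nonneg.2 h1) (sub_nonneg.2 h2)])
  rw [Real.log_mul (by norm_num) (by positivity)] at h3
  have := Real.log_le_sub_one_of_pos (show (0 : ℝ) < 1 + 1 / 1000 by norm_num)
  linarith only [h3, this]

lemma log_quad (hz : z.im ^ 2 ≤ 1 / 100) {b c D a₁ a₂ lo hi : ℝ} (hD : D = b ^ 2 - 4 * c)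
    (h0 : 0 ≤ hi) (hlo : lo ^ 2 ≤ D) (hhi : D ≤ hi ^ 2) (h1 : (-b + hi) / 2 - a₁ ≤ 1 / 20000)
    (h2 : a₁ - (-b + lo) / 2 ≤ 1 / 20000) (h3 : (-b - lo) / 2 - a₂ ≤ 1 / 20000)
    (h4 : a₂ - (-b - hi) / 2 ≤ 1 / 20000) (h : z ^ 2 + b * z + c ≠ 0) :
    2 * Real.log ‖z ^ 2 + b * z + c‖ ≤ Real.log ((z.re - a₁) ^ 2 + 1 / 100) +
      Real.log ((z.re - a₂) ^ 2 + 1 / 100) + 2 / 1000 := by
  have s1 := Real.le_sqrt_of_sq_le hlo
  have s2 := Real.sqrt_le_iff.2 ⟨h0, hhi⟩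
  have s3 := Real.sq_sqrt ((sq_nonneg lo).trans hlo)
  have e : z ^ 2 + b * z + c = (z - ((-b + √D) / 2 : ℝ)) * (z - ((-b - √D) / 2 : ℝ)) := by
    have : ((√D : ℝ) : ℂ) ^ 2 = b ^ 2 - 4 * c := by exact_mod_cast s3.trans hD
    push_cast
    linear_combination this / 4
  rw [e] at h ⊢
  have a1 := left_ne_zero_of_mul h
  have a2 := right_ne_zero_of_mul h
  rw [norm_mul, Real.log_mul (norm_ne_zero_iff.2 a1) (norm_ne_zero_iff.2 a2)]
  have b1 := log_approx hz a1 (b := a₁) (by linarith only [h1, s2]) (by linarith only [h2, s1])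
  have b2 := log_approx hz a2 (b := a₂) (by linarith only [h3, s1]) (by linarith only [h4, s2])
  linarith only [b1, b2]

/-- rational version of `rho` -/
def rhoq (x : ℚ) : ℚ := (x ^ 2 + 3 * x + 1) / (x + 2)

/-- bounds for the linear and the constant term -/
def bd : List (ℚ × ℚ) → ℚ × ℚ × ℚ
  | [] => (0, 0, 0)
  | p :: l => (p.2 * (lgLo (p.1 + 2) - lgHi (rhoq p.1)) + (bd l).1,
      p.2 * (lgHi (p.1 + 2) - lgLo (rhoq p.1)) + (bd l).2.1,
      p.2 * (lgHi (p.1 + 2) - 2 * lgLo (rhoq p.1)) + (bd l).2.2)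

lemma HH_le (hz : z.im ^ 2 ≤ 1 / 100) (hp : ∀ x : ℝ, 0 < x → z - x ≠ 0) (l : List (ℚ × ℚ))
    (hl : ∀ p ∈ l, 0 < p.1 ∧ 0 ≤ p.2) : ∃ L M : ℝ, (bd l).1 ≤ L ∧ L ≤ (bd l).2.1 ∧
      M ≤ (bd l).2.2 ∧ HH l z ≤ SS z.re (l.map fun p => (p.2 / 2, p.1)) + z.re * L + M := by
  induction l with
  | nil => exact ⟨0, 0, by simp [bd], by simp [bd], by simp [bd], by simp [HH, SS]⟩
  | cons p l ih =>
    obtain ⟨L, M, h1, h2, h3, h4⟩ := ih fun s hs => hl s (List.mem_cons_of_mem _ hs)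
    obtain ⟨a1, a2⟩ := hl p List.mem_cons_self
    have b1 : (0 : ℝ) < p.1 := by exact_mod_cast a1
    have b2 : (0 : ℝ) ≤ p.2 := by exact_mod_cast a2
    have e : ((rhoq p.1 : ℚ) : ℝ) = rho p.1 := by simp [rhoq, rho]
    have r : 0 < rhoq p.1 := by unfold rhoq; positivity
    have c1 := mul_le_mul_of_nonneg_left (lgLo_le (q := p.1 + 2) (by positivity)) b2
    have c2 := mul_le_mul_of_nonneg_left (le_lgHi (q := p.1 + 2) (by positivity)) b2
    have c3 := mul_le_mul_of_nonneg_left (lgLo_le r) b2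
    have c4 := mul_le_mul_of_nonneg_left (le_lgHi r) b2
    have c5 := mul_le_mul_of_nonneg_left (log_exact hz (hp _ b1)) b2
    rw [e] at c3 c4
    rw [Rat.cast_add, Rat.cast_ofNat] at c1 c2
    refine ⟨p.2 * (Real.log (p.1 + 2) - Real.log (rho p.1)) + L,
      p.2 * (Real.log (p.1 + 2) - 2 * Real.log (rho p.1)) + M, ?_, ?_, ?_, ?_⟩
    · simp only [bd]; push_cast; linarith only [h1, c1, c4]
    · simp only [bd]; push_cast; linarith only [h2, c2, c3]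
    · simp only [bd]; push_cast; linarith only [h3, c2, c3]
    · simp only [HH, SS, hh, List.map_cons, List.sum_cons] at h4 ⊢
      push_cast at h4 c5 ⊢
      linarith only [h4, c5]

lemma lam_pos : ∀ p ∈ lam, 21 / 50 ≤ p.1 ∧ 0 ≤ p.2 := by decide +kernel

lemma bd_lam : 57619277 / 1000000 ≤ (bd lam).1 ∧ (bd lam).2.1 ≤ 57619297 / 1000000 ∧
    (bd lam).2.2 ≤ -3523371423 / 1000000 := by decide +kernel

theorem pointwise (hz : |z.im| ≤ 1 / 10) (hp : ∀ x : ℝ, 0 < x → z - x ≠ 0) (h0 : z ≠ 0)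
    (h1 : z + 1 ≠ 0) (h2 : z + 2 ≠ 0) (h3 : z ^ 2 + 3 * z + 1 ≠ 0) (h4 : z ^ 2 + z - 1 ≠ 0)
    (h5 : z ^ 2 + 2 * z - 1 ≠ 0) :
    599 / 100 * Real.log ‖z‖ + 79 / 10 * Real.log ‖z + 1‖ + 287 / 100 * Real.log ‖z + 2‖ +
      57 / 50 * Real.log ‖z ^ 2 + 3 * z + 1‖ + 91 / 100 * Real.log ‖z ^ 2 + z - 1‖ +
      14 / 25 * Real.log ‖z ^ 2 + 2 * z - 1‖ ≤ phi z - z.im ^ 2 := by
  have hy : z.im ^ 2 ≤ 1 / 100 := by nlinarith only [hz, abs_le.1 hz]
  obtain ⟨L, M, a1, a2, a3, a4⟩ := HH_le hy hp lam fun p h =>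
    ⟨lt_of_lt_of_le (by norm_num) (lam_pos p h).1, (lam_pos p h).2⟩
  have b1 := (Rat.cast_le (K := ℝ)).2 bd_lam.1
  have b2 := (Rat.cast_le (K := ℝ)).2 bd_lam.2.1
  have b3 := (Rat.cast_le (K := ℝ)).2 bd_lam.2.2
  push_cast at b1 b2 b3
  have c0 := log_exact hy (a := 0) (by simpa using h0)
  have c1 := log_exact hy (a := -1) (by simpa using h1)
  have c2 := log_exact hy (a := -2) (by simpa using h2)
  have c3 := log_quad hy (b := 3) (c := 1) (D := 5) (a₁ := -191 / 500) (a₂ := -1309 / 500)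
    (lo := 2.236) (hi := 2.2361) (by norm_num) (by norm_num) (by norm_num) (by norm_num)
    (by norm_num) (by norm_num) (by norm_num) (by norm_num) (by simpa using h3)
  have c4 := log_quad hy (b := 1) (c := -1) (D := 5) (a₁ := 309 / 500) (a₂ := -809 / 500)
    (lo := 2.236) (hi := 2.2361) (by norm_num) (by norm_num) (by norm_num) (by norm_num)
    (by norm_num) (by norm_num) (by norm_num) (by norm_num) (by simpa [sub_eq_add_neg] using h4)
  have c5 := log_quad hy (b := 2) (c := -1) (D := 8) (a₁ := 2071 / 5000) (a₂ := -12071 / 5000)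
    (lo := 2.8284) (hi := 2.8285) (by norm_num) (by norm_num) (by norm_num) (by norm_num)
    (by norm_num) (by norm_num) (by norm_num) (by norm_num) (by simpa [sub_eq_add_neg] using h5)
  have d := FF_nonneg z.re
  have e : (z ^ 2 + z - 2).re = z.re ^ 2 - z.im ^ 2 + z.re - 2 := by simp [sq]
  have f : z.re * L ≤ 57619287 / 1000000 * z.re + (z.re ^ 2 + 1) / 200000 := by
    rcases le_total 0 z.re with h | h
    · nlinarith only [h, a2, b2, sq_nonneg (z.re - 1), mul_nonneg h (sub_nonneg.2 (a2.trans b2))]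
    · nlinarith only [h, b1, a1, sq_nonneg (z.re + 1), mul_nonneg (neg_nonneg.2 h) (sub_nonneg.2 (b1.trans a1))]
  simp only [FF, SS, terms, fix, List.map_append, List.sum_append, List.map_cons, List.sum_cons,
    List.map_nil, List.sum_nil] at d a4
  push_cast at c0 c1 c2 c3 c4 c5 d
  simp only [sub_zero, sub_neg_eq_add, one_mul, ← sub_eq_add_neg] at c0 c1 c2 c3 c4 c5 d
  rw [phi, e]
  linarith only [hy, a3, a4, b3, c3, f, c0, c1, c2, c4, c5, d]

end Pool.Agent.Work.MP_ce8257_co.Hedge
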