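import Pool.Agent.Work.MP_ce8257_co.Hedge.Point

/-!
The auxiliary polynomial argument for integer polynomials with roots in a strip.
-/

open Polynomial

namespace Pool.Agent.Work.MP_ce8257_co.Hedge

lemma log_norm_prod (s : Multiset ℂ) (g : ℂ → ℂ) (h : ∀ r ∈ s, g r ≠ 0) :
    Real.log ‖(s.map g).prod‖ = (s.map fun r => Real.log ‖g r‖).sum := by
  induction s using Multiset.induction_on with
  | empty => simp
  | cons a s ih =>
    have h2 : ∀ r ∈ s, g r ≠ 0 := fun r hr => h r (Multiset.mem_cons_of_mem hr)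
    simp only [Multiset.map_cons, Multiset.prod_cons, Multiset.sum_cons]
    rw [norm_mul, Real.log_mul (norm_ne_zero_iff.2 (h a (Multiset.mem_cons_self _ _)))
      (norm_ne_zero_iff.2 (Multiset.prod_ne_zero (by simpa using h2))), ih h2]

lemma sum_log_nonneg {Q : ℤ[X]} (hm : Q.Monic) (P : ℤ[X])
    (h : ∀ r ∈ Q.aroots ℂ, aeval r P ≠ 0) :
    0 ≤ ((Q.aroots ℂ).map fun r => Real.log ‖aeval r P‖).sum := by
  have h1 := resultant_eq_prod_eval (Q.map (algebraMap ℤ ℂ)) (P.map (algebraMap ℤ ℂ)) P.natDegree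
    natDegree_map_le (IsAlgClosed.splits _)
  rw [resultant_map_map, (hm.map _).leadingCoeff, one_pow, one_mul] at h1
  have h2 : ((Q.aroots ℂ).map fun r => aeval r P).prod = _ :=
    (congrArg _ (Multiset.map_congr rfl fun r _ => (eval_map_algebraMap P r).symm)).trans h1.symm
  rw [← log_norm_prod _ _ h, h2]
  refine Real.log_nonneg ?_
  have h3 := Int.one_le_abs fun h3 =>
    Multiset.prod_ne_zero (by simpa using h) (h2.trans ((congrArg _ h3).trans (map_zero _)))
  rw [eq_intCast, Complex.norm_intCast]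
  exact_mod_cast h3

lemma quad_dvd {b c : ℤ} (hD : ¬ IsSquare (b ^ 2 - 4 * c)) {Q : ℤ[X]} {r : ℂ}
    (hr : aeval r Q = 0) (h : r ^ 2 + b * r + c = 0) : X ^ 2 + C b * X + C c ∣ Q := by
  have hm : (X ^ 2 + C b * X + C c : ℤ[X]).Monic := by monicity!
  have hd : (X ^ 2 + C b * X + C c : ℤ[X]).natDegree = 2 := by compute_degree!
  have h1 := natDegree_modByMonic_lt Q hm fun h => by rw [h] at hd; simp at hd
  have h2 := eq_X_add_C_of_natDegree_le_one (p := Q %ₘ (X ^ 2 + C b * X + C c)) (by omega)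
  have h3 := congrArg (aeval r) (modByMonic_add_div Q (X ^ 2 + C b * X + C c))
  rw [← modByMonic_eq_zero_iff_dvd hm, h2]
  rw [h2] at h3
  generalize (Q %ₘ (X ^ 2 + C b * X + C c)).coeff 1 = x at *
  generalize (Q %ₘ (X ^ 2 + C b * X + C c)).coeff 0 = y at *
  simp only [map_add, map_mul, map_pow, aeval_X, eq_intCast, map_intCast, h, hr, zero_mul,
    add_zero] at h3
  have h4 : y ^ 2 - b * x * y + c * x ^ 2 = 0 := by
    have : (y : ℂ) ^ 2 - b * x * y + c * x ^ 2 = 0 := by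
      linear_combination (x : ℂ) ^ 2 * h + (y - x * r - b * x) * h3
    exact_mod_cast this
  have h5 : x = 0 := by
    by_contra h6
    refine hD (Rat.isSquare_intCast_iff.1 ⟨(2 * y - b * x) / x, ?_⟩)
    have h7 : (x : ℚ) ≠ 0 := by exact_mod_cast h6
    have h8 : (y : ℚ) ^ 2 - b * x * y + c * x ^ 2 = 0 := by exact_mod_cast h4
    push_cast
    field_simp
    linear_combination -4 * h8
  have h6 : y = 0 := by simpa [h5] using h4
  simp [h5, h6]

lemma quad_pos {b : ℤ} (hD : ¬ IsSquare (b ^ 2 - 4 * -1)) {Q : ℤ[X]}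
    (hp : ∀ x : ℝ, 0 < x → aeval (x : ℂ) Q ≠ 0) {r : ℂ} (hr : aeval r Q = 0) :
    r ^ 2 + b * r - 1 ≠ 0 := fun h => by
  obtain ⟨T, rfl⟩ := quad_dvd hD hr (by push_cast; linear_combination h)
  have s3 := Real.sq_sqrt (show (0 : ℝ) ≤ b ^ 2 + 4 by positivity)
  have s1 : (b : ℝ) < √(b ^ 2 + 4) := Real.lt_sqrt_of_sq_lt (by linarith)
  refine hp ((-b + √(b ^ 2 + 4)) / 2) (by linarith) ?_
  have : ((√(b ^ 2 + 4) : ℝ) : ℂ) ^ 2 = b ^ 2 + 4 := by exact_mod_cast s3
  rw [map_mul]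
  refine mul_eq_zero_of_left ?_ _
  simp only [map_add, map_mul, map_pow, aeval_X, eq_intCast, map_intCast]
  push_cast
  linear_combination this / 4

/-- the weight of a root, reduced by the square of the imaginary part -/
noncomputable def psi (r : ℂ) : ℝ := (if r = 0 then 0 else phi r) - r.im ^ 2

lemma sss_coprime {Q : ℤ[X]} (hm : Q.Monic) (hs : ∀ r ∈ Q.aroots ℂ, |r.im| ≤ 1 / 10)
    (hp : ∀ x : ℝ, 0 < x → aeval (x : ℂ) Q ≠ 0) (h1 : Q.eval (-1) ≠ 0) (h0 : Q.eval 0 ≠ 0)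
    (h2 : Q.eval (-2) ≠ 0) (h3 : ¬ X ^ 2 + C 3 * X + C 1 ∣ Q) :
    0 ≤ ((Q.aroots ℂ).map psi).sum := by
  have rt : ∀ r ∈ Q.aroots ℂ, aeval r Q = 0 := fun r hr => (mem_aroots.1 hr).2
  have ev : ∀ m : ℤ, Q.eval m ≠ 0 → ∀ r ∈ Q.aroots ℂ, r - m ≠ 0 := fun m h r hr e => by
    have := rt r hr
    rw [sub_eq_zero.1 e, show (m : ℂ) = algebraMap ℤ ℂ m from rfl,
      aeval_algebraMap_apply_eq_algebraMap_eval, eq_intCast, Int.cast_eq_zero] at this
    exact h this
  have n0 : ∀ r ∈ Q.aroots ℂ, r ≠ 0 := fun r hr => by simpa using ev 0 h0 r hr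
  have n1 : ∀ r ∈ Q.aroots ℂ, r + 1 ≠ 0 := fun r hr => by simpa using ev (-1) h1 r hr
  have n2 : ∀ r ∈ Q.aroots ℂ, r + 2 ≠ 0 := fun r hr => by simpa using ev (-2) h2 r hr
  have n3 : ∀ r ∈ Q.aroots ℂ, r ^ 2 + 3 * r + 1 ≠ 0 := fun r hr e =>
    h3 (quad_dvd (by decide +kernel) (rt r hr) (by simpa using e))
  have n4 : ∀ r ∈ Q.aroots ℂ, r ^ 2 + r - 1 ≠ 0 := fun r hr => by
    simpa using quad_pos (b := 1) (by decide +kernel) hp (rt r hr)
  have n5 : ∀ r ∈ Q.aroots ℂ, r ^ 2 + 2 * r - 1 ≠ 0 := fun r hr => by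
    simpa using quad_pos (b := 2) (by decide +kernel) hp (rt r hr)
  have s0 := sum_log_nonneg hm X (by simpa only [aeval_X] using n0)
  have s1 := sum_log_nonneg hm (X + 1) (by simpa only [map_add, aeval_X, map_one] using n1)
  have s2 := sum_log_nonneg hm (X + 2) (by simpa only [map_add, aeval_X, map_ofNat] using n2)
  have s3 := sum_log_nonneg hm (X ^ 2 + 3 * X + 1)
    (by simpa only [map_add, map_mul, map_pow, aeval_X, map_one, map_ofNat] using n3)
  have s4 := sum_log_nonneg hm (X ^ 2 + X - 1)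
    (by simpa only [map_add, map_sub, map_pow, aeval_X, map_one] using n4)
  have s5 := sum_log_nonneg hm (X ^ 2 + 2 * X - 1)
    (by simpa only [map_add, map_sub, map_mul, map_pow, aeval_X, map_one, map_ofNat] using n5)
  simp only [map_add, map_sub, map_mul, map_pow, aeval_X, map_one, map_ofNat] at s0 s1 s2 s3 s4 s5
  refine le_trans ?_ (Multiset.sum_map_le_sum_map _ psi fun r hr =>
    (pointwise (hs r hr) (fun x hx e => hp x hx (sub_eq_zero.1 e ▸ rt r hr)) (n0 r hr) (n1 r hr)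
      (n2 r hr) (n3 r hr) (n4 r hr) (n5 r hr)).trans_eq (by rw [psi, if_neg (n0 r hr)]))
  simp only [Multiset.sum_map_add, Multiset.sum_map_mul_left]
  positivity

lemma HH_sum_le (s : Multiset ℂ) (g : ℝ) (w : ℂ) (l : List (ℚ × ℚ)) (h0 : ∀ p ∈ l, 0 ≤ p.2)
    (h : ∀ p ∈ l, g * hh p.1 w ≤ (s.map (hh p.1)).sum) : g * HH l w ≤ (s.map (HH l)).sum := by
  induction l with
  | nil => simp [show HH [] = fun _ => 0 from rfl]
  | cons p l ih =>
    have h1 := ih (fun s hs => h0 s (List.mem_cons_of_mem _ hs))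
      fun s hs => h s (List.mem_cons_of_mem _ hs)
    have h2 := mul_le_mul_of_nonneg_left (h p List.mem_cons_self)
      (show (0 : ℝ) ≤ p.2 by exact_mod_cast h0 p List.mem_cons_self)
    have e : HH (p :: l) = fun z => p.2 * hh p.1 z + HH l z := rfl
    simp only [e, Multiset.sum_map_add, Multiset.sum_map_mul_left]
    linarith

lemma HH_pair (p q : ℂ) (l : List (ℚ × ℚ)) (h : ∀ t ∈ l, hh t.1 p + hh t.1 q = 0) :
    HH l p + HH l q = 0 := by
  induction l with
  | nil => simp [HH]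
  | cons t l ih =>
    have h1 := ih fun s hs => h s (List.mem_cons_of_mem _ hs)
    have h2 := h t List.mem_cons_self
    simp only [HH, List.map_cons, List.sum_cons] at h1 ⊢
    linear_combination h1 + t.2 * h2

lemma psi_two : psi (-2) = 0 := by
  have := HH_pair (-2) (-2) lam fun t _ => by
    have : ‖(-2 : ℂ) - ((t.1 : ℝ) : ℂ)‖ = |(t.1 : ℝ) + 2| := by
      rw [← norm_neg, ← Real.norm_eq_abs, ← Complex.norm_real]
      congr 1
      push_cast
      ring
    simp only [hh, this, Real.log_abs]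
    simp
    ring
  rw [psi, if_neg (by norm_num), phi]
  norm_num
  linarith

lemma psi_golden {p q : ℝ} (h1 : p + q = -3) (h2 : p * q = 1) : psi p + psi q = 0 := by
  have hp : p ≠ 0 := left_ne_zero_of_mul (h2.trans_ne one_ne_zero)
  have hq : q ≠ 0 := right_ne_zero_of_mul (h2.trans_ne one_ne_zero)
  have := HH_pair p q lam fun t ht => by
    have hx : (0 : ℝ) < t.1 := by exact_mod_cast lt_of_lt_of_le (by norm_num) (lam_pos t ht).1
    generalize (t.1 : ℝ) = x at hx
    have e : (p - x) * (q - x) = x ^ 2 + 3 * x + 1 := by linear_combination h2 - x * h1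
    have e0 : (p - x) * (q - x) ≠ 0 := by rw [e]; positivity
    have e1 := Real.log_mul (left_ne_zero_of_mul e0) (right_ne_zero_of_mul e0)
    have e2 : Real.log (rho x) = Real.log (x ^ 2 + 3 * x + 1) - Real.log (x + 2) :=
      Real.log_div (by positivity) (by positivity)
    simp only [hh, ← Complex.ofReal_sub, Complex.norm_real, Real.norm_eq_abs, Real.log_abs,
      Complex.ofReal_re]
    rw [e] at e1
    linear_combination (Real.log (x + 2) - Real.log (rho x)) * h1 - e1 - e2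
  rw [psi, psi, if_neg (by exact_mod_cast hp), if_neg (by exact_mod_cast hq), phi, phi]
  norm_cast
  linear_combination (p + q - 2) * h1 - 2 * h2 - this

lemma psi_quad : (((X ^ 2 + C 3 * X + C 1 : ℤ[X]).aroots ℂ).map psi).sum = 0 := by
  have s3 := Real.sq_sqrt (show (0 : ℝ) ≤ 5 by norm_num)
  have s4 : ((√5 : ℝ) : ℂ) ^ 2 = 5 := by exact_mod_cast s3
  have h : (X ^ 2 + C 3 * X + C 1 : ℤ[X]).map (algebraMap ℤ ℂ) =
      (X - C (((-3 + √5) / 2 : ℝ) : ℂ)) * (X - C (((-3 - √5) / 2 : ℝ) : ℂ)) := by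
    refine Polynomial.funext fun z => ?_
    simp
    linear_combination s4 / 4
  rw [aroots, h, roots_mul (mul_ne_zero (X_sub_C_ne_zero _) (X_sub_C_ne_zero _)), roots_X_sub_C,
    roots_X_sub_C, Multiset.map_add, Multiset.sum_add, Multiset.map_singleton,
    Multiset.map_singleton, Multiset.sum_singleton, Multiset.sum_singleton]
  exact psi_golden (by ring) (by linear_combination -s3 / 4)

theorem sss (n : ℕ) : ∀ Q : ℤ[X], Q.natDegree = n → Q.Monic →
    (∀ r ∈ Q.aroots ℂ, |r.im| ≤ 1 / 10) → (∀ x : ℝ, 0 < x → aeval (x : ℂ) Q ≠ 0) →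
    Q.eval (-1) ≠ 0 → 0 ≤ ((Q.aroots ℂ).map psi).sum := by
  induction n using Nat.strong_induction_on with
  | _ n ih =>
    intro Q hn hm hs hp h1
    have step : ∀ P : ℤ[X], P.Monic → 0 < P.natDegree → ((P.aroots ℂ).map psi).sum = 0 →
        P ∣ Q → 0 ≤ ((Q.aroots ℂ).map psi).sum := by
      rintro P hP hd hw ⟨T, rfl⟩
      have hT : T.Monic := hP.of_mul_monic_left hm
      rw [aroots_mul hm.ne_zero] at hs ⊢
      rw [hP.natDegree_mul hT] at hn
      rw [Multiset.map_add, Multiset.sum_add, hw, zero_add]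
      refine ih T.natDegree (by omega) T rfl hT (fun r hr => hs r (Multiset.mem_add.2 (Or.inr hr)))
        (fun x hx e => hp x hx (by rw [map_mul, e, mul_zero])) fun e => h1 ?_
      rw [eval_mul, e, mul_zero]
    by_cases h0 : Q.eval 0 = 0
    · refine step (X - C 0) (monic_X_sub_C 0) (by simp) ?_ (dvd_iff_isRoot.2 h0)
      rw [aroots_X_sub_C]
      simp [psi]
    by_cases h2 : Q.eval (-2) = 0
    · refine step (X - C (-2)) (monic_X_sub_C _) (by rw [natDegree_X_sub_C]; norm_num) ?_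
        (dvd_iff_isRoot.2 h2)
      rw [aroots_X_sub_C]
      simpa using psi_two
    by_cases h3 : X ^ 2 + C 3 * X + C 1 ∣ Q
    · refine step _ (by monicity!) ?_ psi_quad h3
      rw [show (X ^ 2 + C 3 * X + C 1 : ℤ[X]).natDegree = 2 by compute_degree!]
      norm_num
    exact sss_coprime hm hs hp h1 h0 h2 h3

end Pool.Agent.Work.MP_ce8257_co.Hedge
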